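import Pool.Agent.TH289.N.B1

/-!
# Closed affine manifolds with contractible families of vector fields on the cover

Let `M = Γ \ X` be a closed affine manifold. If the group `Γ` leaves invariant a contractible family
of vector fields without zeros on the cover `X`, then `M` has a vector field without zeros. In
particular this is the case if the holonomy leaves invariant a nonempty contractible subset of the
complement of the developing image, or (for the linear holonomy) a contractible set of nonzero
vectors, or more generally a contractible subset of `E × ℝ` that misses all `(t dev x, t)`.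
-/

set_option autoImplicit false

open Set Topology

namespace Pool.Agent.Results.MP_1fa9a4_gt.ContractibleFamilies

/-- A closed affine manifold `Γ \ X` modelled on the vector space `E`: the group `Γ` acts on the
Hausdorff space `X` freely and properly discontinuously and with compact quotient, and the
developing map `dev` is a local homeomorphism to `E` that is equivariant with respect to the affine
holonomy `hol`. -/
structure ClosedAffine (X Γ E : Type) [TopologicalSpace X] [Group Γ] [MulAction Γ X]
    [NormedAddCommGroup E] [NormedSpace ℝ E] (dev : X → E) (hol : Γ →* (E ≃ᵃ[ℝ] E)) : Prop where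
  /-- the developing map is a local homeomorphism -/
  loc : IsLocalHomeomorph dev
  /-- the group acts by homeomorphisms -/
  cont : ∀ γ : Γ, Continuous fun x : X => γ • x
  /-- the developing map is equivariant -/
  equi : ∀ (γ : Γ) (x : X), dev (γ • x) = hol γ (dev x)
  /-- the action is free -/
  free : ∀ γ : Γ, γ ≠ 1 → ∀ x : X, γ • x ≠ x
  /-- the action is properly discontinuous -/
  pd : ∀ K : Set X, IsCompact K → {γ : Γ | ∃ x ∈ K, γ • x ∈ K}.Finite
  /-- the quotient is compact -/
  cc : ∃ K : Set X, IsCompact K ∧ ∀ x : X, ∃ γ : Γ, ∃ k ∈ K, γ • k = x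

variable {X Γ E : Type} [TopologicalSpace X] [Group Γ] [MulAction Γ X] [NormedAddCommGroup E]
  [NormedSpace ℝ E]

/-- The closed affine manifold has a continuous vector field without zeros. -/
def HasField (dev : X → E) (hol : Γ →* (E ≃ᵃ[ℝ] E)) : Prop :=
  ∃ Z : X → E, Continuous Z ∧ (∀ (γ : Γ) (x : X), Z (γ • x) = (hol γ).linear (Z x)) ∧
    ∀ x, Z x ≠ 0

/-- **Theorem.** Let `Γ \ X` be a closed affine manifold.
(1) If `Y` is a contractible space with an action of `Γ` by homeomorphisms and `V y`, for `y` in
`Y`, is a continuous family of vector fields without zeros on the cover `X` such that `γ` maps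
`V y` to `V (γ y)`, then `Γ \ X` has a vector field without zeros.
(2) If `S` is a contractible subset of `E × ℝ` that contains `(lin γ v + t τ, t)` whenever it
contains `(v, t)`, where `p ↦ lin γ p + τ` is the holonomy of `γ`, and `v ≠ t dev x` for all
`(v, t)` in `S` and all `x`, then `Γ \ X` has a vector field without zeros.
(3) If the affine holonomy leaves invariant a contractible subset of `E` that is disjoint from the
developing image, or the linear holonomy leaves invariant a contractible subset of `E` that does
not contain the origin, then `Γ \ X` has a vector field without zeros. -/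
theorem result [T2Space X] [FiniteDimensional ℝ E] {dev : X → E}
    {hol : Γ →* (E ≃ᵃ[ℝ] E)} (D : ClosedAffine X Γ E dev hol) :
    (∀ (Y : Type) [TopologicalSpace Y] [MulAction Γ Y], (∀ γ : Γ, Continuous fun y : Y => γ • y) →
      ContractibleSpace Y → ∀ V : Y → X → E, (Continuous fun z : Y × X => V z.1 z.2) →
      (∀ (γ : Γ) (y : Y) (x : X), V (γ • y) (γ • x) = (hol γ).linear (V y x)) →
      (∀ y x, V y x ≠ 0) → HasField dev hol) ∧
    (∀ S : Set (E × ℝ), ContractibleSpace S →
      (∀ γ : Γ, ∀ z ∈ S, ((hol γ).linear z.1 + z.2 • hol γ 0, z.2) ∈ S) →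
      (∀ z ∈ S, ∀ x, z.1 ≠ z.2 • dev x) → HasField dev hol) ∧
    (∀ S : Set E, ContractibleSpace S →
      ((∀ γ : Γ, ∀ p ∈ S, hol γ p ∈ S) ∧ Disjoint S (range dev) ∨
        (∀ γ : Γ, ∀ p ∈ S, (hol γ).linear p ∈ S) ∧ (0 : E) ∉ S) → HasField dev hol) := by
  have D' : Pool.Agent.W689.Ch.AffMfd X Γ E dev hol := ⟨D.loc, D.cont, D.equi, D.pd, D.cc⟩
  have h1 : ∀ (Y : Type) [TopologicalSpace Y] [MulAction Γ Y],
      (∀ γ : Γ, Continuous fun y : Y => γ • y) →
      ContractibleSpace Y → ∀ V : Y → X → E, (Continuous fun z : Y × X => V z.1 z.2) →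
      (∀ (γ : Γ) (y : Y) (x : X), V (γ • y) (γ • x) = (hol γ).linear (V y x)) →
      (∀ y x, V y x ≠ 0) → HasField dev hol := by
    intro Y _ _ hcY hY V hV hVe hV0
    obtain ⟨s, hs, hse⟩ := Pool.Agent.TH289.N.exists_eqv D' D.free hcY
    refine ⟨fun x => V (s x) x, hV.comp (hs.prodMk continuous_id), fun γ x => ?_,
      fun x => hV0 _ _⟩
    show V (s (γ • x)) (γ • x) = _
    rw [hse, hVe]
  have hlin : ∀ (γ : Γ) (p : E), hol γ p = (hol γ).linear p + hol γ 0 := by
    intro γ p
    have := (hol γ).map_vadd 0 p
    rwa [vadd_eq_add, add_zero, vadd_eq_add] at this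
  have hlin1 : ∀ p : E, (hol 1).linear p = p := by
    intro p
    have h := hlin 1 p
    rw [map_one] at h ⊢
    rfl
  have hlin2 : ∀ (γ δ : Γ) (p : E), (hol (γ * δ)).linear p = (hol γ).linear ((hol δ).linear p) := by
    intro γ δ p
    rw [map_mul]
    rfl
  have hcontl : ∀ γ : Γ, Continuous fun p : E => (hol γ).linear p := fun γ =>
    LinearMap.continuous_of_finiteDimensional ((hol γ).linear : E →ₗ[ℝ] E)
  have h2 : ∀ S : Set (E × ℝ), ContractibleSpace S →
      (∀ γ : Γ, ∀ z ∈ S, ((hol γ).linear z.1 + z.2 • hol γ 0, z.2) ∈ S) →
      (∀ z ∈ S, ∀ x, z.1 ≠ z.2 • dev x) → HasField dev hol := by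
    intro S hS hinv h0
    let _ : MulAction Γ S :=
      { smul := fun γ z => ⟨((hol γ).linear z.1.1 + z.1.2 • hol γ 0, z.1.2), hinv γ z.1 z.2⟩
        one_smul := by
          intro z
          apply Subtype.ext
          show ((hol 1).linear z.1.1 + z.1.2 • hol 1 0, z.1.2) = z.1
          rw [hlin1]
          have h3 : hol (1 : Γ) (0 : E) = 0 := by rw [map_one]; rfl
          rw [h3, smul_zero, add_zero]
        mul_smul := by
          intro γ δ z
          apply Subtype.ext
          show ((hol (γ * δ)).linear z.1.1 + z.1.2 • hol (γ * δ) 0, z.1.2) =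
            ((hol γ).linear ((hol δ).linear z.1.1 + z.1.2 • hol δ 0) + z.1.2 • hol γ 0, z.1.2)
          have h3 : hol (γ * δ) (0 : E) = (hol γ).linear (hol δ 0) + hol γ 0 := by
            rw [← hlin, map_mul]
            rfl
          rw [hlin2, h3, map_add, map_smul, smul_add]
          congr 1
          abel }
    have hsm : ∀ (γ : Γ) (z : S), (γ • z).1 =
      ((hol γ).linear z.1.1 + z.1.2 • hol γ 0, z.1.2) := fun _ _ => rfl
    refine h1 S (fun γ => ?_) hS (fun z x => z.1.1 - z.1.2 • dev x) ?_ ?_ ?_
    · rw [continuous_induced_rng]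
      show Continuous fun z : S => ((hol γ).linear z.1.1 + z.1.2 • hol γ 0, z.1.2)
      exact ((((hcontl γ).comp (continuous_fst.comp continuous_subtype_val))).add
        ((continuous_snd.comp continuous_subtype_val).smul continuous_const)).prodMk
        (continuous_snd.comp continuous_subtype_val)
    · have h3 : Continuous fun z : S × X => (z.1 : E × ℝ) := continuous_subtype_val.comp continuous_fst
      exact (continuous_fst.comp h3).sub ((continuous_snd.comp h3).smul
        (D.loc.continuous.comp continuous_snd))
    · intro γ z x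
      show (γ • z).1.1 - (γ • z).1.2 • dev (γ • x) = _
      rw [hsm, D.equi, hlin γ (dev x), map_sub, map_smul]
      simp only [smul_add]
      abel
    · intro z x h
      exact h0 z.1 z.2 x (sub_eq_zero.1 h)
  refine ⟨h1, h2, fun S hS h => ?_⟩
  rcases h with ⟨hinv, hdis⟩ | ⟨hinv, h0⟩
  · let _ : MulAction Γ S :=
      { smul := fun γ z => ⟨hol γ z.1, hinv γ z.1 z.2⟩
        one_smul := by
          intro z
          apply Subtype.ext
          show hol 1 z.1 = z.1
          rw [map_one]; rfl
        mul_smul := by
          intro γ δ z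
          apply Subtype.ext
          show hol (γ * δ) z.1 = hol γ (hol δ z.1)
          rw [map_mul]; rfl }
    refine h1 S (fun γ => ?_) hS (fun z x => z.1 - dev x) ?_ ?_ ?_
    · rw [continuous_induced_rng]
      show Continuous fun z : S => hol γ z.1
      exact ((hol γ).toAffineMap.continuous_of_finiteDimensional).comp continuous_subtype_val
    · exact (continuous_subtype_val.comp continuous_fst).sub (D.loc.continuous.comp continuous_snd)
    · intro γ z x
      show hol γ z.1 - dev (γ • x) = _
      rw [D.equi, hlin γ z.1, hlin γ (dev x), map_sub]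
      abel
    · intro z x h
      have h3 : (z.1 : E) = dev x := sub_eq_zero.1 h
      exact disjoint_left.1 hdis z.2 (h3 ▸ mem_range_self x)
  · let _ : MulAction Γ S :=
      { smul := fun γ z => ⟨(hol γ).linear z.1, hinv γ z.1 z.2⟩
        one_smul := by
          intro z
          apply Subtype.ext
          exact hlin1 z.1
        mul_smul := by
          intro γ δ z
          apply Subtype.ext
          exact hlin2 γ δ z.1 }
    refine h1 S (fun γ => ?_) hS (fun z _ => z.1) ?_ ?_ ?_
    · rw [continuous_induced_rng]
      show Continuous fun z : S => (hol γ).linear z.1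
      exact (hcontl γ).comp continuous_subtype_val
    · exact continuous_subtype_val.comp continuous_fst
    · intro γ z x
      rfl
    · intro z x h
      exact h0 (h ▸ z.2)

end Pool.Agent.Results.MP_1fa9a4_gt.ContractibleFamilies
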