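import Pool.Agent.TH845.Mk.Cov

/-!
# Dynamics of the holonomy of a closed affine manifold without vector fields

Chern's conjecture says that closed affine manifolds have Euler characteristic zero. By the
theorem of Poincare and Hopf it is enough to find a continuous vector field without zeros. We
study the affine holonomy group of a closed affine manifold that has no such field.

1. Every σ-finite (more generally s-finite) measure on the affine space is moved to infinity by
   a sequence of holonomy transformations. Equivalently, if the images of some finite measure keep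
   a definite amount of mass in some bounded set, then the manifold has a field without zeros.
2. There is an invariant affine subspace `H` of positive dimension, which meets the developing
   image and for which the closed affine manifold developed into `H` has no tangent field without
   zeros, such that every bounded subset of `H` is covered by `dim H + 1` holonomy images of any
   half-space of `H`. Hence the images of any measure give every half-space of `H` at least the
   fraction `1 / (dim H + 1)` of its mass, and an invariant measure is infinite on all of them.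
-/

set_option autoImplicit false

open Set Filter Topology MeasureTheory
open scoped ENNReal

namespace Pool.Agent.Results.MP_1fa9a4_gt.EscapeOfMass

/-- A closed affine manifold `Γ \ X` modelled on the vector space `E`: the group `Γ` acts on the
Hausdorff space `X` properly discontinuously and with compact quotient, and the developing map
`dev` is a local homeomorphism to `E` that is equivariant with respect to the affine holonomy
`hol`. -/
structure ClosedAffine (X Γ E : Type) [TopologicalSpace X] [Group Γ] [MulAction Γ X]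
    [NormedAddCommGroup E] [NormedSpace ℝ E] (dev : X → E) (hol : Γ →* (E ≃ᵃ[ℝ] E)) : Prop where
  /-- the developing map is a local homeomorphism -/
  loc : IsLocalHomeomorph dev
  /-- the group acts by homeomorphisms -/
  cont : ∀ γ : Γ, Continuous fun x : X => γ • x
  /-- the developing map is equivariant -/
  equi : ∀ (γ : Γ) (x : X), dev (γ • x) = hol γ (dev x)
  /-- the action is properly discontinuous -/
  pd : ∀ K : Set X, IsCompact K → {γ : Γ | ∃ x ∈ K, γ • x ∈ K}.Finite
  /-- the quotient is compact -/
  cc : ∃ K : Set X, IsCompact K ∧ ∀ x : X, ∃ γ : Γ, ∃ k ∈ K, γ • k = x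

variable {X Γ E : Type} [TopologicalSpace X] [Group Γ] [MulAction Γ X] [NormedAddCommGroup E]
  [NormedSpace ℝ E]

/-- The affine manifold `Γ \ dev⁻¹(H)` has a continuous vector field without zeros, tangent to
`H`. For `H = ⊤` this is a vector field without zeros on the whole manifold `Γ \ X`. -/
def HasField (dev : X → E) (hol : Γ →* (E ≃ᵃ[ℝ] E)) (H : AffineSubspace ℝ E) : Prop :=
  ∃ Z : X → E, ContinuousOn Z {x | dev x ∈ H} ∧
    (∀ x, dev x ∈ H → Z x ∈ H.direction ∧ Z x ≠ 0) ∧
    ∀ (γ : Γ) (x : X), dev x ∈ H → Z (γ • x) = (hol γ).linear (Z x)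

/-- The set `S` is invariant under the holonomy. -/
def Invariant (hol : Γ →* (E ≃ᵃ[ℝ] E)) (S : Set E) : Prop := ∀ (γ : Γ), ∀ q ∈ S, hol γ q ∈ S

/-- The set `H` has no proper nonempty invariant star-shaped subset. -/
def NoStar (hol : Γ →* (E ≃ᵃ[ℝ] E)) (H : Set E) : Prop :=
  ∀ (S : Set E) (p : E), p ∈ S → S ⊆ H → StarConvex ℝ p S → Invariant hol S → S = H

variable [MeasurableSpace E]

/-- A sequence in the holonomy group moves `μ`-almost every point to infinity. -/
def Escapes (hol : Γ →* (E ≃ᵃ[ℝ] E)) (μ : Measure E) : Prop :=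
  ∃ g : ℕ → Γ, ∀ᵐ p ∂μ, Tendsto (fun k => ‖hol (g k) p‖) atTop atTop

/-- Properties of a large subset `P` of a set `H` of dimension `n`. -/
structure Large (hol : Γ →* (E ≃ᵃ[ℝ] E)) (n : ℕ) (H P : Set E) : Prop where
  /-- every bounded subset of `H` is covered by `n + 1` images of `P` -/
  cover : ∀ B : Set E, Bornology.IsBounded B → ∃ s : Finset Γ, s.card ≤ n + 1 ∧
    B ∩ H ⊆ ⋃ γ ∈ s, hol γ ⁻¹' P
  /-- every measure is concentrated on some image of `P` up to a factor `n + 1` -/
  mass : ∀ μ : Measure E, μ H ≤ ((n + 1 : ℕ) : ℝ≥0∞) * ⨆ γ : Γ, μ (hol γ ⁻¹' P)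
  /-- every invariant measure that charges `H` is infinite on `P` -/
  inf : ∀ μ : Measure E, μ H ≠ 0 →
    (∀ (γ : Γ) (A : Set E), MeasurableSet A → μ (hol γ ⁻¹' A) = μ A) → μ P = ∞

/-- **Theorem.** Let `Γ \ X` be a closed affine manifold of positive dimension, with `X`
connected, that has no continuous vector field without zeros. Then every σ-finite measure on the
affine space is moved to infinity by a sequence in the holonomy group. Moreover there is an
invariant affine subspace `H` of positive dimension, which meets the developing image, without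
tangent field and without proper invariant star-shaped subsets, such that all half-spaces of `H`
are large. -/
theorem result [T2Space X] [ConnectedSpace X] [FiniteDimensional ℝ E] [Nontrivial E]
    [BorelSpace E] {dev : X → E} {hol : Γ →* (E ≃ᵃ[ℝ] E)}
    (D : ClosedAffine X Γ E dev hol) (hno : ¬ HasField dev hol ⊤) :
    (∀ μ : Measure E, SFinite μ → Escapes hol μ) ∧
    ∃ H : AffineSubspace ℝ E, Invariant hol H ∧ H.direction ≠ ⊥ ∧ (∃ x, dev x ∈ H) ∧
      ¬ HasField dev hol H ∧ NoStar hol H ∧
      ∀ φ : E →L[ℝ] ℝ, (∃ v ∈ H.direction, φ v ≠ 0) → ∀ a : ℝ,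
        Large hol (Module.finrank ℝ H.direction) H {p | p ∈ H ∧ a ≤ φ p} := by
  have D' : Pool.Agent.W689.Ch.AffMfd X Γ E dev hol := ⟨D.loc, D.cont, D.equi, D.pd, D.cc⟩
  have hno' : ¬ ∃ Z : X → E, Continuous Z ∧
      (∀ (γ : Γ) x, Z (γ • x) = Pool.Agent.W689.Mk.lin hol γ (Z x)) ∧ ∀ x, Z x ≠ 0 := by
    rintro ⟨Z, h1, h2, h3⟩
    refine hno ⟨Z, h1.continuousOn, fun x _ => ⟨?_, h3 x⟩, fun γ x _ => h2 γ x⟩
    rw [AffineSubspace.direction_top]
    exact Submodule.mem_top
  refine ⟨fun μ hμ => Pool.Agent.TH845.Mk.escape hol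
    (Pool.Agent.TH845.Mk.no_compact D' hno') μ, ?_⟩
  obtain ⟨H, p₀, hp, hinv, hdir, hx, hH, hirr⟩ := Pool.Agent.TH845.Mk.core D' hno
  refine ⟨H, hinv, hdir, hx, hH, ?_, fun φ hφ a => ?_⟩
  · intro S p hpS hSH hs hSinv
    have h1 := hirr {v | p₀ + v.1 ∈ S} ⟨p - p₀, Pool.Agent.TH845.Mk.sub_mem_dir hp (hSH hpS)⟩
      (by show p₀ + (p - p₀) ∈ S; rwa [add_sub_cancel]) (by
        intro v hv b c hb hc hbc
        have h2 := hs hv hb hc hbc
        have h3 : b • p + c • (p₀ + v.1) = p₀ + (b • (p - p₀) + c • v.1) := by
          have : b = 1 - c := by linarith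
          rw [this]; module
        rw [h3] at h2
        exact h2) (by
        intro γ v hv
        show p₀ + (hol γ (p₀ + v.1) - p₀) ∈ S
        rw [add_sub_cancel]
        exact hSinv γ _ hv)
    refine Subset.antisymm hSH fun q hq => ?_
    have h2 : (⟨q - p₀, Pool.Agent.TH845.Mk.sub_mem_dir hp hq⟩ : H.direction) ∈
        {v : H.direction | p₀ + v.1 ∈ S} := by rw [h1]; trivial
    have h3 : p₀ + (q - p₀) ∈ S := h2
    rwa [add_sub_cancel] at h3
  · have hcov := fun (a : ℝ) (B : Set E) (hB : Bornology.IsBounded B) =>
      Pool.Agent.TH845.Mk.sub_cover hp hinv hirr φ hφ a hB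
    have hmeas := fun (μ : Measure E) (a : ℝ) =>
      Pool.Agent.TH845.Mk.measure_of_cover (hcov a) μ
    refine ⟨fun B hB => ?_, fun μ => ?_, fun μ hμ hμi =>
      Pool.Agent.TH845.Mk.inv_top hinv (hmeas μ) hμi hμ a⟩
    · obtain ⟨s, hs, h⟩ := hcov a B hB
      refine ⟨s, hs, ?_⟩
      rintro q ⟨hqB, hqH⟩
      obtain ⟨γ, hγ, h1⟩ := h q hqH hqB
      exact mem_iUnion₂.2 ⟨γ, hγ, hinv γ q hqH, h1⟩
    · refine (hmeas μ a).trans ?_
      gcongr with γ
      rintro p ⟨hpH, hp'⟩
      exact ⟨hinv γ p hpH, hp'⟩

end Pool.Agent.Results.MP_1fa9a4_gt.EscapeOfMass
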