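import Pool.Agent.TH289.N.A5

/-!
# A critical point principle for closed affine manifolds

Let `M = Γ \ X` be a closed connected affine manifold. A tangent vector is bad if its geodesic is
not defined up to time one (or, for a given conjugation invariant set `C` of deck transformations,
if its geodesic closes up at time one to a loop of a class in `C`). Let `f` be any continuous
function on the tangent bundle that is proper on the fibres, for instance a norm. If `M` has no
vector field without zeros, there is a point at which the origin is a convex combination of bad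
vectors that minimise `f` among all bad vectors: the nearest bad vectors surround the point, as at
a critical point of a distance function in the sense of Grove and Shiohama.
-/

set_option autoImplicit false

open Set Topology

namespace Pool.Agent.Results.MP_1fa9a4_gt.NearestIncompleteVectors

/-- A closed affine manifold `Γ \ X` modelled on the vector space `E`: the group `Γ` acts on the
Hausdorff space `X` properly discontinuously and with compact quotient, and the developing map
`dev` is a local homeomorphism to `E` that is equivariant with respect to the affine holonomy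
`hol`. -/
structure ClosedAffine (X Γ E : Type) [TopologicalSpace X] [Group Γ] [MulAction Γ X]
    [NormedAddCommGroup E] [NormedSpace ℝ E] (dev : X → E) (hol : Γ →* (E ≃ᵃ[ℝ] E)) : Prop where
  /-- the developing map is a local homeomorphism -/
  loc : IsLocalHomeomorph dev
  /-- the group acts by homeomorphisms -/
  cont : ∀ γ : Γ, Continuous fun x : X => γ • x
  /-- the developing map is equivariant -/
  equi : ∀ (γ : Γ) (x : X), dev (γ • x) = hol γ (dev x)
  /-- the action is properly discontinuous -/
  pd : ∀ K : Set X, IsCompact K → {γ : Γ | ∃ x ∈ K, γ • x ∈ K}.Finite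
  /-- the quotient is compact -/
  cc : ∃ K : Set X, IsCompact K ∧ ∀ x : X, ∃ γ : Γ, ∃ k ∈ K, γ • k = x

variable {X Γ E : Type} [TopologicalSpace X] [Group Γ] [MulAction Γ X] [NormedAddCommGroup E]
  [NormedSpace ℝ E]

/-- The geodesic with initial point `x` and initial velocity `v` is defined up to time one and
ends at `y`: some path from `x` to `y` is developed to `t ↦ dev x + t v`. -/
def Geodesic (dev : X → E) (x : X) (v : E) (y : X) : Prop :=
  ∃ c : ℝ → X, ContinuousOn c (Icc 0 1) ∧ c 0 = x ∧ c 1 = y ∧
    ∀ t ∈ Icc (0 : ℝ) 1, dev (c t) = dev x + t • v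

/-- The bad velocities at `x`: the geodesic is not defined up to time one, or it ends at time one
at `c x` for some `c` in `C`. -/
def Bad (dev : X → E) (C : Set Γ) (x : X) : Set E :=
  {v | (¬ ∃ y, Geodesic dev x v y) ∨ ∃ c ∈ C, Geodesic dev x v (c • x)}

/-- The closed affine manifold has a continuous vector field without zeros. -/
def HasField (dev : X → E) (hol : Γ →* (E ≃ᵃ[ℝ] E)) : Prop :=
  ∃ Z : X → E, Continuous Z ∧ (∀ (γ : Γ) (x : X), Z (γ • x) = (hol γ).linear (Z x)) ∧
    ∀ x, Z x ≠ 0

/-- **Theorem.** Let `Γ \ X` be a closed connected affine manifold.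
(1) Let `C` be a conjugation invariant set of deck transformations; `C` may be empty if the
structure is not complete. Let `f` be an invariant continuous function on the tangent bundle, proper
on the fibres locally uniformly. If at no point the origin is in the convex hull of the minimisers
of `f` over the bad velocities, then there is a vector field without zeros.
(2) If the structure is not complete and at no point the origin is in the convex hull of the
velocities whose geodesic is not defined up to time one, then there is a vector field without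
zeros. -/
theorem result [T2Space X] [PreconnectedSpace X] [FiniteDimensional ℝ E] {dev : X → E}
    {hol : Γ →* (E ≃ᵃ[ℝ] E)} (D : ClosedAffine X Γ E dev hol) :
    (∀ C : Set Γ, (∀ γ : Γ, ∀ c ∈ C, γ * c * γ⁻¹ ∈ C) →
      (C.Nonempty ∨ ¬ IsHomeomorph dev) →
      ∀ f : X → E → ℝ, (Continuous fun z : X × E => f z.1 z.2) →
      (∀ (x0 : X) (a : ℝ), ∃ R : ℝ, ∀ᶠ x in 𝓝 x0, ∀ v, f x v ≤ a → ‖v‖ ≤ R) →
      (∀ (γ : Γ) (x : X) (v : E), f (γ • x) ((hol γ).linear v) = f x v) →
      (∀ x, (0 : E) ∉ convexHull ℝ
        {v | v ∈ Bad dev C x ∧ ∀ w ∈ Bad dev C x, f x v ≤ f x w}) →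
      HasField dev hol) ∧
    (¬ IsHomeomorph dev →
      (∀ x, (0 : E) ∉ convexHull ℝ {v | ¬ ∃ y, Geodesic dev x v y}) →
      HasField dev hol) := by
  have D' : Pool.Agent.W689.Ch.AffMfd X Γ E dev hol := ⟨D.loc, D.cont, D.equi, D.pd, D.cc⟩
  have hE : ∀ (x : X) (v : E) (y : X), Geodesic dev x v y ↔ Pool.Agent.W689.Mk.Ex dev x v y :=
    fun x v y => (Pool.Agent.TH289.N.Ex_iff D.loc).symm
  have hB : ∀ (C : Set Γ) (x : X), Bad dev C x = Pool.Agent.TH289.N.Bad dev C x := by
    intro C x
    ext v
    simp only [Bad, Pool.Agent.TH289.N.Bad, Pool.Agent.TH289.N.Dom, mem_setOf_eq, hE]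
  have h1 : ∀ C : Set Γ, (∀ γ : Γ, ∀ c ∈ C, γ * c * γ⁻¹ ∈ C) →
      (C.Nonempty ∨ ¬ IsHomeomorph dev) →
      ∀ f : X → E → ℝ, (Continuous fun z : X × E => f z.1 z.2) →
      (∀ (x0 : X) (a : ℝ), ∃ R : ℝ, ∀ᶠ x in 𝓝 x0, ∀ v, f x v ≤ a → ‖v‖ ≤ R) →
      (∀ (γ : Γ) (x : X) (v : E), f (γ • x) ((hol γ).linear v) = f x v) →
      (∀ x, (0 : E) ∉ convexHull ℝ
        {v | v ∈ Bad dev C x ∧ ∀ w ∈ Bad dev C x, f x v ≤ f x w}) →
      HasField dev hol := by
    intro C hCc hC f hf hp hi hcrit
    refine Pool.Agent.TH289.N.main D' hCc hC hf hp hi fun x => ?_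
    have h2 := hcrit x
    rw [hB] at h2
    exact h2
  refine ⟨h1, fun hinc hx => ?_⟩
  obtain ⟨f, hf, hp, hi⟩ := Pool.Agent.TH289.N.exists_norm D'
  refine h1 ∅ (fun _ _ h => absurd h (notMem_empty _)) (Or.inr hinc) f hf hp hi fun x h0 => ?_
  refine hx x (convexHull_mono ?_ h0)
  rintro v ⟨hv | ⟨c, hc, -⟩, -⟩
  · exact hv
  · exact absurd hc (notMem_empty c)

end Pool.Agent.Results.MP_1fa9a4_gt.NearestIncompleteVectors
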