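import Pool.Agent.W689.Ch.Main
import Pool.Agent.TH878.Mk.Chern

set_option autoImplicit false

open Set Pool.Agent.W689.Mk Pool.Agent.W689.Ch Pool.Agent.TH878.Mk

namespace Pool.Agent.Results.MP_1fa9a4_gt.OneSidedDirections

/-- Let `Γ \ X` be a closed affine manifold that is not complete and has no continuous vector field
without zeros (by Poincare and Hopf there is none when the Euler characteristic is not zero). Then:
(1) the vectors `v` of the model space such that from every point of the cover the geodesic with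
velocity `v` is defined up to time one form a linear subspace `W`, and `W` contains no hyperplane;
(2) for every holonomy-invariant subset `C` of the affine space, the vectors `v` with
`C + t v ⊆ C` for all `t ≥ 0` form a linear subspace. -/
theorem result (E X Γ : Type) [NormedAddCommGroup E] [NormedSpace ℝ E] [FiniteDimensional ℝ E]
    [TopologicalSpace X] [T2Space X] [ConnectedSpace X]
    [Group Γ] [MulAction Γ X] (dev : X → E) (hol : Γ →* (E ≃ᵃ[ℝ] E))
    (D : AffMfd X Γ E dev hol) (hinc : ¬ IsHomeomorph dev) (hno : ¬ Field dev hol) :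
    (∃ W : Submodule ℝ E, (∀ v : E, v ∈ W ↔ ∀ x : X, Geod dev x v) ∧
      ∀ φ : E →L[ℝ] ℝ, φ ≠ 0 → ∃ f, φ f = 0 ∧ f ∉ W) ∧
    (∀ C : Set E, (∀ γ : Γ, ∀ q ∈ C, hol γ q ∈ C) → ∃ W : Submodule ℝ E,
      ∀ v : E, v ∈ W ↔ ∀ q ∈ C, ∀ t : ℝ, 0 ≤ t → q + t • v ∈ C) := by
  refine ⟨?_, fun C hinv => ?_⟩
  · have hG : ∀ v : E, v ∈ CD dev ↔ ∀ x : X, Geod dev x v := fun v =>
      ⟨fun h x => by obtain ⟨y, hy⟩ := h x; exact hy.geod, fun h x => Geod.ex D.loc (h x)⟩
    have hneg : ∀ v ∈ CD dev, -v ∈ CD dev := fun v hv => by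
      by_contra h
      exact hno (field_of_dir D hv h)
    let W : Submodule ℝ E :=
      { carrier := CD dev
        add_mem' := fun {v w} hv hw => CD.add D.loc hv hw
        zero_mem' := zero_mem_CD D.loc
        smul_mem' := fun t v hv => by
          rcases le_total 0 t with ht | ht
          · exact CD.smul D.loc hv ht
          · have h1 := CD.smul D.loc (hneg v hv) (t := -t) (by linarith)
            rwa [neg_smul_neg] at h1 }
    have hW : ∀ v, v ∈ W ↔ v ∈ CD dev := fun v => Iff.rfl
    refine ⟨W, fun v => (hW v).trans (hG v), fun φ hφ => ?_⟩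
    by_contra hcon
    push Not at hcon
    have hall := slab_all D.loc hφ (fun f hf => (hW f).1 (hcon f hf))
    have hinj : Function.Injective dev := by
      intro x y hxy
      obtain ⟨a, b, τ, hτ, hx, hy⟩ := hall x y
      rw [← hx.2, ← hy.2, hxy]
    have hconv : Convex ℝ (range dev) := by
      rintro _ ⟨x, rfl⟩ _ ⟨y, rfl⟩ s t hs ht hst
      obtain ⟨a, b, τ, hτ, hx, hy⟩ := hall x y
      have h1 := Slab.convex φ a b hx.1 hy.1 hs ht hst
      exact ⟨_, hτ.inv _ h1⟩
    have hne : range dev ≠ univ := fun h =>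
      hinc ⟨D.loc.continuous, D.loc.isOpenMap, hinj, range_eq_univ.1 h⟩
    obtain ⟨x0⟩ := (inferInstance : Nonempty X)
    exact (main D (S := range dev) (p := dev x0) ⟨x0, rfl⟩ (hconv.starConvex ⟨x0, rfl⟩) hne
      (by rintro γ _ ⟨x, rfl⟩; exact ⟨γ • x, D.equi γ x⟩) hno).1 Subset.rfl
  · have hneg : ∀ v ∈ Tr C, -v ∈ Tr C := fun v hv => by
      by_contra h
      exact hno (field_of_set D hinv hv h)
    have hsm : ∀ v ∈ Tr C, ∀ s : ℝ, 0 ≤ s → s • v ∈ Tr C := by
      intro v hv s hs q hq t ht
      rw [smul_smul]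
      exact hv q hq _ (mul_nonneg ht hs)
    let W : Submodule ℝ E :=
      { carrier := Tr C
        add_mem' := fun {v w} hv hw q hq t ht => by
          have := hw _ (hv q hq t ht) t ht
          rwa [add_assoc, ← smul_add] at this
        zero_mem' := fun q hq t _ => by rwa [smul_zero, add_zero]
        smul_mem' := fun t v hv => by
          rcases le_total 0 t with ht | ht
          · exact hsm v hv t ht
          · have h1 := hsm _ (hneg v hv) (-t) (by linarith)
            rwa [neg_smul_neg] at h1 }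
    exact ⟨W, fun v => Iff.rfl⟩

end Pool.Agent.Results.MP_1fa9a4_gt.OneSidedDirections
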